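import Mathlib

/-!
# Cellular automata with short orphans whose words are mostly not orphans

For every `r ≥ 1` a cellular automaton of range `2` with `4 (r + 1)` states is given that has an orphan
of length `r + 4`, but for which a word that is not an orphan is obtained unless the word has a factor
of length `r + 1` whose letters are restricted to at most four possibilities each.
-/

set_option autoImplicit false

namespace Pool.Agent.Results.MP_642fbc_lc.Orphans

/-- The word `u` of length `l` is an orphan of the cellular automaton with the local rule `f`: it is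
not the image of a word `v` of length `l + 1`. -/
def Orphan {S : Type} (f : S → S → S) {l : ℕ} (u : Fin l → S) : Prop :=
  ¬ ∃ v : Fin (l + 1) → S, ∀ i : Fin l, f (v i.castSucc) (v i.succ) = u i

/-- The proportion of the words of length `l` that are orphans. -/
noncomputable def rho {S : Type} (f : S → S → S) (l : ℕ) : ℝ :=
  (Nat.card {u : Fin l → S // Orphan f u} : ℝ) / (Nat.card S : ℝ) ^ l

/-- The length of a shortest orphan. -/
noncomputable def shortest {S : Type} (f : S → S → S) : ℕ :=
  sInf {l | ∃ u : Fin l → S, Orphan f u}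

/-! ## The cellular automaton -/

/-- The second components of the states. -/
inductive Lt (r : ℕ) : Type
  | p : Lt r
  | c : Lt r
  | a : Fin r → Lt r
  | b : Fin r → Lt r
  deriving DecidableEq

/-- The states are pairs of a Boolean value and one of `2 r + 2` values. -/
def ltEquiv (r : ℕ) : Lt r ≃ Option (Option (Fin r ⊕ Fin r)) where
  toFun x := match x with
    | .p => none
    | .c => some none
    | .a k => some (some (Sum.inl k))
    | .b k => some (some (Sum.inr k))
  invFun x := match x with
    | none => .p
    | some none => .c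
    | some (some (Sum.inl k)) => .a k
    | some (some (Sum.inr k)) => .b k
  left_inv x := by cases x <;> rfl
  right_inv x := by rcases x with _ | _ | _ | _ <;> rfl

instance (r : ℕ) : Fintype (Lt r) := Fintype.ofEquiv _ (ltEquiv r).symm

theorem card_Lt (r : ℕ) : Fintype.card (Lt r) = 2 * r + 2 := by
  rw [Fintype.card_congr (ltEquiv r), Fintype.card_option, Fintype.card_option, Fintype.card_sum,
    Fintype.card_fin]
  ring

/-- The states. -/
abbrev St (r : ℕ) : Type := Bool × Lt r

theorem card_St (r : ℕ) : Fintype.card (St r) = 4 * (r + 1) := by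
  rw [Fintype.card_prod, card_Lt, Fintype.card_bool]
  ring

instance (r : ℕ) : Nonempty (St r) := ⟨(false, .p)⟩

/-- The involution that exchanges `a k` and `b k`. -/
def sw {r : ℕ} (k : ℕ) : Lt r → Lt r
  | .a j => if j.val = k then .b j else .a j
  | .b j => if j.val = k then .a j else .b j
  | .p => .p
  | .c => .c

theorem sw_sw {r : ℕ} (k : ℕ) (x : Lt r) : sw k (sw k x) = x := by
  cases x with
  | p => rfl
  | c => rfl
  | a j => by_cases h : j.val = k <;> simp [sw, h]
  | b j => by_cases h : j.val = k <;> simp [sw, h]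

/-- The position of a letter in the chain. -/
def idx {r : ℕ} : Lt r → ℕ
  | .a j => j.val
  | .b j => j.val
  | .c => r
  | .p => r + 1

theorem sw_of_ne {r : ℕ} {k : ℕ} (_hk : k < r) {x : Lt r} (h : idx x ≠ k) : sw k x = x := by
  cases x with
  | p => rfl
  | c => rfl
  | a j => simp only [idx] at h; simp [sw, h]
  | b j => simp only [idx] at h; simp [sw, h]

/-- The local rule. -/
def rule (r : ℕ) : St r → St r → St r
  | (e, .p), (e', y) => if e = false then (e', sw 0 y) else (!e', y)
  | (e, .b k), (e', y) =>
    if k.val + 1 = r then (if y = .c then (e, .c) else (xor e e', y))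
    else (xor e e', sw (k.val + 1) y)
  | (e, .a _), (e', y) => (xor e e', y)
  | (e, .c), (e', y) => (xor e e', y)

/-! ## Words without the factor are not orphans -/

/-- The state `x` is the last state of a word of length `i + 1` whose image is the word given by the
first `i` values of `u`. -/
def Reach {r : ℕ} (u : ℕ → St r) (i : ℕ) (x : St r) : Prop :=
  ∃ v : ℕ → St r, v i = x ∧ ∀ j < i, rule r (v j) (v (j + 1)) = u j

theorem reach_zero {r : ℕ} (u : ℕ → St r) (x : St r) : Reach u 0 x :=
  ⟨fun _ => x, rfl, fun j hj => absurd hj (Nat.not_lt_zero j)⟩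

theorem reach_succ {r : ℕ} {u : ℕ → St r} {i : ℕ} {x y : St r} (h : Reach u i x)
    (hy : rule r x y = u i) : Reach u (i + 1) y := by
  obtain ⟨v, hv, hv'⟩ := h
  refine ⟨fun j => if j ≤ i then v j else y, by simp, fun j hj => ?_⟩
  rcases Nat.lt_succ_iff_lt_or_eq.1 hj with h | rfl
  · dsimp only
    rw [if_pos h.le, if_pos (by omega)]
    exact hv' j h
  · dsimp only
    rw [if_pos le_rfl, if_neg (by omega), hv]
    exact hy

theorem step_plain {r : ℕ} {u : ℕ → St r} {i : ℕ} {e : Bool} {x : Lt r} {k : Fin r}
    (hx : x = .a k ∨ x = .c) (h : Reach u i (e, x)) : Reach u (i + 1) (xor e (u i).1, (u i).2) := by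
  refine reach_succ h ?_
  rcases hx with rfl | rfl <;> rcases u i with ⟨d, s⟩ <;> cases e <;> cases d <;> rfl

theorem step_b {r : ℕ} {u : ℕ → St r} {i : ℕ} {e : Bool} {k : Fin r} (hk : k.val + 1 ≠ r)
    (h : Reach u i (e, .b k)) : Reach u (i + 1) (xor e (u i).1, sw (k.val + 1) (u i).2) := by
  refine reach_succ h ?_
  rcases u i with ⟨d, s⟩
  simp only [rule, if_neg hk, sw_sw]
  cases e <;> cases d <;> rfl

theorem step_last {r : ℕ} {u : ℕ → St r} {i : ℕ} {e : Bool} {k : Fin r} (hk : k.val + 1 = r)
    (h : Reach u i (e, .b k)) (hs : (u i).2 ≠ .c) : Reach u (i + 1) (xor e (u i).1, (u i).2) := by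
  refine reach_succ h ?_
  generalize u i = x at hs ⊢
  rcases x with ⟨d, s⟩
  dsimp only at hs ⊢
  simp only [rule, if_pos hk, if_neg hs]
  cases e <;> cases d <;> rfl

/-- Both states with some second component can be reached. -/
def Pair {r : ℕ} (u : ℕ → St r) (i : ℕ) : Prop :=
  ∃ t : Lt r, Reach u i (false, t) ∧ Reach u i (true, t)

theorem pair_of {r : ℕ} {u : ℕ → St r} {i : ℕ} {e : Bool} {t : Lt r} (h : Reach u i (e, t))
    (h' : Reach u i (!e, t)) : Pair u i := by
  cases e
  · exact ⟨t, h, h'⟩
  · exact ⟨t, h', h⟩

/-- The states `b k` and `a k` with different first components can be reached, and the last `k + 1`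
letters of the word are the first `k + 1` steps of the chain. -/
def Stage {r : ℕ} (u : ℕ → St r) (i : ℕ) : Prop :=
  ∃ k : Fin r, ∃ i' : ℕ, i = i' + k.val + 1 ∧ (∀ j ≤ k.val, idx (u (i' + j)).2 = j) ∧
    ∃ e : Bool, Reach u i (e, .b k) ∧ Reach u i (!e, .a k)

theorem xor_not (e d : Bool) : xor (!e) d = !(xor e d) := by cases e <;> cases d <;> rfl

theorem inv_step {r : ℕ} {u : ℕ → St r} {i l : ℕ} (hi : i < l)
    (hu : ∀ i', i' + r < l → ∃ j ≤ r, idx (u (i' + j)).2 ≠ j) (h : Pair u i ∨ Stage u i) :
    Pair u (i + 1) ∨ Stage u (i + 1) := by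
  rcases h with ⟨t, h1, h2⟩ | ⟨k, i', hi', hch, e, h1, h2⟩
  · cases t with
    | c =>
      by_cases hr : 0 < r
      · exact Or.inl (pair_of (e := xor false (u i).1) (step_plain (k := ⟨0, hr⟩) (Or.inr rfl) h1)
          (by rw [← xor_not]; exact step_plain (k := ⟨0, hr⟩) (Or.inr rfl) h2))
      · left
        refine ⟨(u i).2, ?_, ?_⟩
        · rcases hx : u i with ⟨d, s⟩
          cases d
          · exact reach_succ h1 (by rw [hx]; rfl)
          · exact reach_succ h2 (by rw [hx]; rfl)
        · rcases hx : u i with ⟨d, s⟩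
          cases d
          · exact reach_succ h2 (by rw [hx]; rfl)
          · exact reach_succ h1 (by rw [hx]; rfl)
    | a k =>
      exact Or.inl (pair_of (e := xor false (u i).1) (step_plain (k := k) (Or.inl rfl) h1)
          (by rw [← xor_not]; exact step_plain (k := k) (Or.inl rfl) h2))
    | p =>
      have h3 : Reach u (i + 1) ((u i).1, sw 0 (u i).2) := by
        refine reach_succ h1 ?_
        rcases u i with ⟨d, s⟩
        simp [rule, sw_sw]
      have h4 : Reach u (i + 1) (!(u i).1, (u i).2) := by
        refine reach_succ h2 ?_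
        rcases u i with ⟨d, s⟩
        simp [rule]
      by_cases hr : 0 < r
      · by_cases hs : idx (u i).2 = 0
        · right
          refine ⟨⟨0, hr⟩, i, rfl, ?_, ?_⟩
          · intro j hj
            have : j = 0 := by
              change j ≤ 0 at hj
              omega
            subst this
            exact hs
          · generalize u i = x at hs h3 h4
            rcases x with ⟨d, s⟩
            dsimp only at hs h3 h4
            cases s with
            | p => simp [idx] at hs
            | c => simp [idx] at hs; omega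
            | a j =>
              have hj : j = ⟨0, hr⟩ := Fin.ext hs
              subst hj
              exact ⟨d, by simpa [sw] using h3, h4⟩
            | b j =>
              have hj : j = ⟨0, hr⟩ := Fin.ext hs
              subst hj
              exact ⟨!d, h4, by simpa [sw] using h3⟩
        · left
          rw [sw_of_ne hr hs] at h3
          exact pair_of h3 h4
      · left
        have : sw 0 (u i).2 = (u i).2 := by
          cases (u i).2 with
          | p => rfl
          | c => rfl
          | a j => exact absurd j.2 (by omega)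
          | b j => exact absurd j.2 (by omega)
        rw [this] at h3
        exact pair_of h3 h4
    | b k =>
      left
      by_cases hk : k.val + 1 = r
      · by_cases hs : (u i).2 = .c
        · refine ⟨.c, ?_, ?_⟩
          · rcases hx : u i with ⟨d, s⟩
            rw [hx] at hs
            dsimp only at hs
            subst hs
            cases d
            · exact reach_succ h1 (by rw [hx]; simp [rule, hk])
            · exact reach_succ h2 (by rw [hx]; simp [rule, hk])
          · rcases hx : u i with ⟨d, s⟩
            rw [hx] at hs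
            dsimp only at hs
            subst hs
            cases d
            · exact reach_succ h1 (by rw [hx]; simp [rule, hk])
            · exact reach_succ h2 (by rw [hx]; simp [rule, hk])
        · exact pair_of (e := xor false (u i).1) (step_last hk h1 hs)
            (by rw [← xor_not]; exact step_last hk h2 hs)
      · exact pair_of (e := xor false (u i).1) (step_b hk h1)
          (by rw [← xor_not]; exact step_b hk h2)
  · have h4 : Reach u (i + 1) (!(xor e (u i).1), (u i).2) := by
      rw [← xor_not]
      exact step_plain (k := k) (Or.inl rfl) h2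
    by_cases hk : k.val + 1 = r
    · by_cases hs : (u i).2 = .c
      · exfalso
        obtain ⟨j, hj, hj'⟩ := hu i' (by omega)
        apply hj'
        rcases Nat.lt_or_ge k.val j with h | h
        · have : j = r := by omega
          subst this
          rw [show i' + j = i by omega, hs]
          rfl
        · exact hch j h
      · exact Or.inl (pair_of (step_last hk h1 hs) h4)
    · have h3 := step_b hk h1
      by_cases hs : idx (u i).2 = k.val + 1
      · right
        have hkr : k.val + 1 < r := by omega
        refine ⟨⟨k.val + 1, hkr⟩, i', by rw [hi']; rfl, ?_, ?_⟩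
        · intro j hj
          change j ≤ k.val + 1 at hj
          rcases Nat.lt_or_ge k.val j with h | h
          · have : j = k.val + 1 := by omega
            subst this
            rw [show i' + (k.val + 1) = i by omega, hs]
          · exact hch j h
        · generalize u i = x at hs h3 h4
          rcases x with ⟨d, s⟩
          dsimp only at hs h3 h4
          cases s with
          | p => simp only [idx] at hs; omega
          | c => simp only [idx] at hs; omega
          | a j =>
            have hj : j = ⟨k.val + 1, hkr⟩ := Fin.ext hs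
            subst hj
            exact ⟨xor e d, by simpa [sw] using h3, h4⟩
          | b j =>
            have hj : j = ⟨k.val + 1, hkr⟩ := Fin.ext hs
            subst hj
            refine ⟨!(xor e d), h4, ?_⟩
            rw [Bool.not_not]
            simpa [sw] using h3
      · left
        rw [sw_of_ne (by omega) hs] at h3
        exact pair_of h3 h4

theorem not_orphan {r l : ℕ} (u : Fin l → St r)
    (hu : ∀ i (hi : i + r < l), ∃ (j : ℕ) (hj : j ≤ r), idx (u ⟨i + j, by omega⟩).2 ≠ j) :
    ¬ Orphan (rule r) u := by
  intro ho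
  apply ho
  let u' : ℕ → St r := fun i => if h : i < l then u ⟨i, h⟩ else (false, .p)
  have hu' : ∀ i', i' + r < l → ∃ j ≤ r, idx (u' (i' + j)).2 ≠ j := by
    intro i hi
    obtain ⟨j, hj, hj'⟩ := hu i hi
    refine ⟨j, hj, ?_⟩
    simp only [u']
    rw [dif_pos (by omega)]
    exact hj'
  have inv : ∀ i ≤ l, Pair u' i ∨ Stage u' i := by
    intro i
    induction i with
    | zero => exact fun _ => Or.inl ⟨.p, reach_zero _ _, reach_zero _ _⟩
    | succ i ih => exact fun hi => inv_step (by omega) hu' (ih (by omega))
  have hr : ∃ x, Reach u' l x := by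
    rcases inv l le_rfl with ⟨t, h, -⟩ | ⟨k, -, -, -, e, h, -⟩
    · exact ⟨_, h⟩
    · exact ⟨_, h⟩
  obtain ⟨x, v, -, hv⟩ := hr
  refine ⟨fun i => v i, fun i => ?_⟩
  have := hv i i.2
  simp only [u', dif_pos i.2] at this
  exact this

/-! ## A short orphan -/

/-- The orphan. -/
def orph (r : ℕ) (i : ℕ) : St r :=
  if h₀ : i = 0 then (false, .p)
  else if h : i ≤ r then (false, .a ⟨i - 1, by omega⟩)
  else if i = r + 1 then (true, .c)
  else if i = r + 2 then (if h : 0 < r then (false, .b ⟨r - 1, by omega⟩) else (false, .p))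
  else (true, .c)

theorem orph_orphan {r : ℕ} (hr : 0 < r) : Orphan (rule r) (fun i : Fin (r + 4) => orph r i) := by
  rintro ⟨v, hv⟩
  have h0 : (v ⟨1, by omega⟩).2 = .p := by
    have h := hv ⟨0, by omega⟩
    have h' : rule r (v ⟨0, by omega⟩) (v ⟨1, by omega⟩) = (false, .p) := h
    generalize v ⟨1, by omega⟩ = y at h' ⊢
    generalize v ⟨0, by omega⟩ = x at h'
    rcases x with ⟨e, x⟩
    rcases y with ⟨e', y⟩
    dsimp only
    cases x with
    | p =>
      cases e
      · simp only [rule, if_true, Prod.mk.injEq] at h'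
        rw [← sw_sw 0 y, h'.2]
        rfl
      · simp only [rule] at h'
        simp at h'
        exact h'.2
    | c => simp only [rule, Prod.mk.injEq] at h'; exact h'.2
    | a k => simp only [rule, Prod.mk.injEq] at h'; exact h'.2
    | b k =>
      simp only [rule] at h'
      split_ifs at h' with h1 h2
      · simp at h'
      · simp only [Prod.mk.injEq] at h'; exact h'.2
      · simp only [Prod.mk.injEq] at h'
        rw [← sw_sw (k.val + 1) y, h'.2]
        rfl
  have h1 : ∀ k (hk : k < r), v ⟨k + 2, by omega⟩ = (false, .b ⟨k, hk⟩) ∨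
      v ⟨k + 2, by omega⟩ = (true, .a ⟨k, hk⟩) := by
    intro k
    induction k with
    | zero =>
      intro hk
      have h := hv ⟨1, by omega⟩
      have h' : rule r (v ⟨1, by omega⟩) (v ⟨2, by omega⟩) = (false, .a ⟨0, hk⟩) := by
        refine h.trans ?_
        simp [orph, show 1 ≤ r from hk]
      change v ⟨2, by omega⟩ = (false, .b ⟨0, hk⟩) ∨ v ⟨2, by omega⟩ = (true, .a ⟨0, hk⟩)
      generalize v ⟨2, by omega⟩ = y at h' ⊢
      generalize v ⟨1, by omega⟩ = x at h' h0
      rcases x with ⟨e, x⟩
      rcases y with ⟨e', y⟩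
      dsimp only at h0
      subst h0
      cases e
      · left
        simp only [rule, if_true, Prod.mk.injEq] at h'
        rw [h'.1, ← sw_sw 0 y, h'.2]
        simp [sw]
      · right
        simp [rule] at h'
        rw [h'.1, h'.2]
    | succ k ih =>
      intro hk
      have h := hv ⟨k + 2, by omega⟩
      have h' : rule r (v ⟨k + 2, by omega⟩) (v ⟨k + 3, by omega⟩) = (false, .a ⟨k + 1, hk⟩) := by
        refine h.trans ?_
        simp [orph, show k + 2 ≤ r from hk]
      change v ⟨k + 3, by omega⟩ = (false, .b ⟨k + 1, hk⟩) ∨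
        v ⟨k + 3, by omega⟩ = (true, .a ⟨k + 1, hk⟩)
      have hih := ih (by omega)
      generalize v ⟨k + 3, by omega⟩ = y at h' ⊢
      generalize v ⟨k + 2, by omega⟩ = x at h' hih
      rcases y with ⟨e', y⟩
      rcases hih with rfl | rfl
      · left
        have hk' : k + 1 ≠ r := by omega
        simp only [rule, if_neg hk', Prod.mk.injEq] at h'
        have h2 : e' = false := by simpa using h'.1
        rw [h2, ← sw_sw (k + 1) y, h'.2]
        simp [sw]
      · right
        simp only [rule, Prod.mk.injEq] at h'
        have h2 : e' = true := by simpa using h'.1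
        rw [h2, h'.2]
  have h2 : v ⟨r + 2, by omega⟩ = (false, .c) := by
    have h := hv ⟨r + 1, by omega⟩
    have h' : rule r (v ⟨r + 1, by omega⟩) (v ⟨r + 2, by omega⟩) = (true, .c) := by
      refine h.trans ?_
      simp [orph]
    have h3 := h1 (r - 1) (by omega)
    have h4 : (⟨r - 1 + 2, by omega⟩ : Fin (r + 4 + 1)) = ⟨r + 1, by omega⟩ := by
      apply Fin.ext
      simp
      omega
    rw [h4] at h3
    generalize v ⟨r + 2, by omega⟩ = y at h' ⊢
    generalize v ⟨r + 1, by omega⟩ = x at h' h3
    rcases y with ⟨e', y⟩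
    rcases h3 with rfl | rfl
    · exfalso
      simp only [rule, show r - 1 + 1 = r by omega, if_true] at h'
      split_ifs at h' with h5
      · simp at h'
      · simp only [Prod.mk.injEq] at h'
        exact h5 h'.2
    · simp only [rule, Prod.mk.injEq] at h'
      have h5 : e' = false := by simpa using h'.1
      rw [h5, h'.2]
  have h3 : v ⟨r + 3, by omega⟩ = (false, .b ⟨r - 1, by omega⟩) := by
    have h := hv ⟨r + 2, by omega⟩
    have h' : rule r (v ⟨r + 2, by omega⟩) (v ⟨r + 3, by omega⟩) =
        (false, .b ⟨r - 1, by omega⟩) := by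
      refine h.trans ?_
      simp [orph, hr]
    rw [h2] at h'
    generalize v ⟨r + 3, by omega⟩ = y at h' ⊢
    rcases y with ⟨e', y⟩
    simp only [rule, Prod.mk.injEq] at h'
    have h5 : e' = false := by simpa using h'.1
    rw [h5, h'.2]
  have h := hv ⟨r + 3, by omega⟩
  have h' : rule r (v ⟨r + 3, by omega⟩) (v ⟨r + 4, by omega⟩) = (true, .c) := by
    refine h.trans ?_
    simp [orph]
  rw [h3] at h'
  generalize v ⟨r + 4, by omega⟩ = y at h'
  rcases y with ⟨e', y⟩
  simp only [rule, show r - 1 + 1 = r by omega, if_true] at h'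
  split_ifs at h' with h5
  · simp at h'
  · simp only [Prod.mk.injEq] at h'
    exact h5 h'.2

/-! ## Counting -/

theorem card_fiber {r : ℕ} (k : ℕ) :
    (Finset.univ.filter fun x : St r => idx x.2 = k).card ≤ 4 := by
  have h : (Finset.univ.filter fun x : St r => idx x.2 = k).card ≤
      (Finset.univ : Finset (Bool × Bool)).card := by
    refine Finset.card_le_card_of_injOn (fun x => (x.1, match x.2 with
      | .b _ => true
      | _ => false)) (fun _ _ => Finset.mem_coe.2 (Finset.mem_univ _)) ?_
    rintro ⟨e, x⟩ hx ⟨e', y⟩ hy hxy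
    have hx' : idx x = k := (Finset.mem_filter.1 hx).2
    have hy' : idx y = k := (Finset.mem_filter.1 hy).2
    simp only [Prod.mk.injEq] at hxy
    obtain ⟨h1, h2⟩ := hxy
    subst h1
    have hxy' : idx x = idx y := hx'.trans hy'.symm
    have : x = y := by
      cases x with
      | p => cases y with
        | p => rfl
        | c => simp [idx] at hxy'
        | a j => simp only [idx] at hxy'; omega
        | b j => simp at h2
      | c => cases y with
        | p => simp [idx] at hxy'
        | c => rfl
        | a j => simp only [idx] at hxy'; omega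
        | b j => simp at h2
      | a i => cases y with
        | p => simp only [idx] at hxy'; omega
        | c => simp only [idx] at hxy'; omega
        | a j => exact congrArg Lt.a (Fin.ext hxy')
        | b j => simp at h2
      | b i => cases y with
        | p => simp at h2
        | c => simp at h2
        | a j => simp at h2
        | b j => exact congrArg Lt.b (Fin.ext hxy')
    rw [this]
  exact h.trans (by simp)

theorem card_window {r l i : ℕ} (hi : i + r < l) :
    (Finset.univ.filter fun u : Fin l → St r => ∀ (j : ℕ) (hj : j ≤ r),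
      idx (u ⟨i + j, by omega⟩).2 = j).card * (r + 1) ^ (r + 1) ≤ (4 * (r + 1)) ^ l := by
  classical
  let A : Fin l → Finset (St r) := fun m =>
    if i ≤ m.val ∧ m.val ≤ i + r then Finset.univ.filter fun x : St r => idx x.2 = m.val - i
    else Finset.univ
  have h1 : (Finset.univ.filter fun u : Fin l → St r => ∀ (j : ℕ) (hj : j ≤ r),
      idx (u ⟨i + j, by omega⟩).2 = j) ⊆ Fintype.piFinset A := by
    intro u hu
    rw [Finset.mem_filter] at hu
    rw [Fintype.mem_piFinset]
    intro m
    simp only [A]
    split_ifs with hm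
    · rw [Finset.mem_filter]
      refine ⟨Finset.mem_univ _, ?_⟩
      have := hu.2 (m.val - i) (by omega)
      have hm' : (⟨i + (m.val - i), by omega⟩ : Fin l) = m := Fin.ext (by simp; omega)
      rw [hm'] at this
      exact this
    · exact Finset.mem_univ _
  have h2 := Finset.card_le_card h1
  rw [Fintype.card_piFinset] at h2
  have h3 : ∏ m, (A m).card ≤
      ∏ m : Fin l, (if i ≤ m.val ∧ m.val ≤ i + r then 4 else 4 * (r + 1)) := by
    refine Finset.prod_le_prod' fun m _ => ?_
    simp only [A]
    split_ifs with hm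
    · exact card_fiber _
    · rw [Finset.card_univ, card_St]
  rw [Fin.prod_univ_eq_prod_range (fun m => if i ≤ m ∧ m ≤ i + r then 4 else 4 * (r + 1)) l,
    Finset.prod_ite, Finset.prod_const, Finset.prod_const] at h3
  have h4 : (Finset.range l).filter (fun m => i ≤ m ∧ m ≤ i + r) = Finset.Icc i (i + r) := by
    ext m
    simp only [Finset.mem_filter, Finset.mem_range, Finset.mem_Icc]
    omega
  have h5 : ((Finset.range l).filter (fun m => i ≤ m ∧ m ≤ i + r)).card = r + 1 := by
    rw [h4, Nat.card_Icc]
    omega
  have h6 := Finset.card_filter_add_card_filter_not (s := Finset.range l)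
    (fun m => i ≤ m ∧ m ≤ i + r)
  rw [h5, Finset.card_range] at h6
  rw [h5] at h3
  have h7 := h2.trans h3
  calc _ ≤ (4 ^ (r + 1) * (4 * (r + 1)) ^
        ((Finset.range l).filter fun m => ¬ (i ≤ m ∧ m ≤ i + r)).card) * (r + 1) ^ (r + 1) :=
        Nat.mul_le_mul_right _ h7
    _ = (4 * (r + 1)) ^ (r + 1) * (4 * (r + 1)) ^
        ((Finset.range l).filter fun m => ¬ (i ≤ m ∧ m ≤ i + r)).card := by
        rw [mul_pow 4 (r + 1) (r + 1), mul_right_comm]
    _ = (4 * (r + 1)) ^ l := by rw [← pow_add, h6]

theorem card_orphan {r l : ℕ} :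
    Nat.card {u : Fin l → St r // Orphan (rule r) u} * (r + 1) ^ (r + 1) ≤
      l * (4 * (r + 1)) ^ l := by
  classical
  rw [Nat.card_eq_fintype_card, Fintype.card_subtype]
  have h1 : (Finset.univ.filter fun u : Fin l → St r => Orphan (rule r) u) ⊆
      (Finset.range (l - r)).biUnion fun i => Finset.univ.filter fun u : Fin l → St r =>
        ∀ (j : ℕ) (hj : j ≤ r) (h : i + j < l), idx (u ⟨i + j, h⟩).2 = j := by
    intro u hu
    rw [Finset.mem_filter] at hu
    rw [Finset.mem_biUnion]
    by_contra hcon
    push Not at hcon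
    refine not_orphan u (fun i hi => ?_) hu.2
    have h := hcon i (Finset.mem_range.2 (by omega))
    rw [Finset.mem_filter] at h
    push Not at h
    obtain ⟨j, hj, h', h''⟩ := h (Finset.mem_univ _)
    exact ⟨j, hj, h''⟩
  have h2 := (Finset.card_le_card h1).trans Finset.card_biUnion_le
  refine (Nat.mul_le_mul_right _ h2).trans ?_
  rw [Finset.sum_mul]
  refine (Finset.sum_le_card_nsmul _ _ ((4 * (r + 1)) ^ l) fun i hi => ?_).trans ?_
  · rw [Finset.mem_range] at hi
    have h3 := card_window (r := r) (l := l) (i := i) (by omega)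
    refine le_trans (Nat.mul_le_mul_right _ (Finset.card_le_card ?_)) h3
    intro u hu
    rw [Finset.mem_filter] at hu ⊢
    exact ⟨hu.1, fun j hj => hu.2 j hj _⟩
  · rw [Finset.card_range, smul_eq_mul]
    exact Nat.mul_le_mul_right _ (Nat.sub_le _ _)

theorem rho_le (r l : ℕ) : rho (rule r) l ≤ l / (r + 1 : ℝ) ^ (r + 1) := by
  have h := card_orphan (r := r) (l := l)
  have h' : (Nat.card {u : Fin l → St r // Orphan (rule r) u} : ℝ) * (r + 1) ^ (r + 1) ≤
      l * (4 * (r + 1)) ^ l := by exact_mod_cast h
  unfold rho
  rw [Nat.card_eq_fintype_card (α := St r), card_St]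
  push_cast
  rw [div_le_div_iff₀ (by positivity) (by positivity)]
  exact h'

/-! ## Polynomials -/

theorem poly_bound (P : MvPolynomial (Fin 2) ℝ) : ∃ (C : ℝ) (D : ℕ), 0 ≤ C ∧
    ∀ x y : ℝ, 0 ≤ x → 0 ≤ y → |MvPolynomial.eval ![x, y] P| ≤ C * (1 + x + y) ^ D := by
  induction P using MvPolynomial.induction_on with
  | C a => exact ⟨|a|, 0, abs_nonneg a, fun x y _ _ => by simp⟩
  | add p q hp hq =>
    obtain ⟨C, D, hC, h⟩ := hp
    obtain ⟨C', D', hC', h'⟩ := hq
    refine ⟨C + C', max D D', by positivity, fun x y hx hy => ?_⟩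
    rw [map_add]
    have h1 : (1 + x + y) ^ D ≤ (1 + x + y) ^ max D D' :=
      pow_le_pow_right₀ (by linarith) (le_max_left _ _)
    have h2 : (1 + x + y) ^ D' ≤ (1 + x + y) ^ max D D' :=
      pow_le_pow_right₀ (by linarith) (le_max_right _ _)
    calc _ ≤ _ := abs_add_le _ _
      _ ≤ C * (1 + x + y) ^ D + C' * (1 + x + y) ^ D' := add_le_add (h x y hx hy) (h' x y hx hy)
      _ ≤ C * (1 + x + y) ^ max D D' + C' * (1 + x + y) ^ max D D' := by gcongr
      _ = _ := by ring
  | mul_X p i hp =>
    obtain ⟨C, D, hC, h⟩ := hp
    refine ⟨C, D + 1, hC, fun x y hx hy => ?_⟩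
    rw [map_mul, MvPolynomial.eval_X, abs_mul, pow_succ, ← mul_assoc]
    refine mul_le_mul (h x y hx hy) ?_ (abs_nonneg _) (by positivity)
    fin_cases i
    · simp only [Fin.zero_eta, Matrix.cons_val_zero]
      rw [abs_of_nonneg hx]
      linarith
    · simp only [Fin.mk_one, Matrix.cons_val_one, Matrix.cons_val_fin_one]
      rw [abs_of_nonneg hy]
      linarith

/-- There is no polynomial bound, in terms of the number of states and of the length of a shortest
orphan, for the length at which more than half of the words are orphans. -/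
theorem result : ∀ P : MvPolynomial (Fin 2) ℝ, ∃ (S : Type) (_ : Finite S) (_ : Nonempty S)
    (f : S → S → S), (∃ (l : ℕ) (u : Fin l → S), Orphan f u) ∧
      ∀ l : ℕ, (l : ℝ) ≤ MvPolynomial.eval ![(Nat.card S : ℝ), (shortest f : ℝ)] P →
        rho f l ≤ 1 / 2 := by
  intro P
  obtain ⟨C, D, hC, hP⟩ := poly_bound P
  obtain ⟨r₀, hr₀⟩ := exists_nat_ge (2 * (C * 9 ^ D))
  set r : ℕ := r₀ + D + 1 with hr
  refine ⟨St r, inferInstance, inferInstance, rule r, ⟨_, _, orph_orphan (by omega)⟩,
    fun l hl => (rho_le r l).trans ?_⟩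
  have h1 : shortest (rule r) ≤ r + 4 := Nat.sInf_le ⟨_, orph_orphan (by omega)⟩
  have h2 := (le_abs_self _).trans (hP (Nat.card (St r)) (shortest (rule r)) (Nat.cast_nonneg _)
    (Nat.cast_nonneg _))
  have h3 : (Nat.card (St r) : ℝ) = 4 * (r + 1) := by
    rw [Nat.card_eq_fintype_card, card_St]
    push_cast
    ring
  have h4 : (shortest (rule r) : ℝ) ≤ r + 4 := by exact_mod_cast h1
  have h5 : (1 : ℝ) + Nat.card (St r) + shortest (rule r) ≤ 9 * (r + 1) := by
    rw [h3]
    have : (0 : ℝ) ≤ r := Nat.cast_nonneg r
    linarith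
  have h6 : (l : ℝ) ≤ C * (9 * (r + 1)) ^ D := by
    refine (hl.trans h2).trans ?_
    gcongr
  have h7 : 2 * (C * 9 ^ D) ≤ (r : ℝ) + 1 := by
    refine hr₀.trans ?_
    rw [hr]
    push_cast
    linarith [Nat.cast_nonneg (α := ℝ) D]
  rw [div_le_div_iff₀ (by positivity) (by norm_num)]
  have h8 : (1 : ℝ) ≤ (r : ℝ) + 1 := by
    have : (0 : ℝ) ≤ r := Nat.cast_nonneg r
    linarith
  calc (l : ℝ) * 2 ≤ C * (9 * (r + 1)) ^ D * 2 := by gcongr
    _ = 2 * (C * 9 ^ D) * (r + 1 : ℝ) ^ D := by rw [mul_pow]; ring
    _ ≤ ((r : ℝ) + 1) * (r + 1 : ℝ) ^ D := by gcongr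
    _ = (r + 1 : ℝ) ^ (D + 1) := by ring
    _ ≤ (r + 1 : ℝ) ^ (r + 1) := pow_le_pow_right₀ h8 (by omega)
    _ = 1 * (r + 1 : ℝ) ^ (r + 1) := (one_mul _).symm

end Pool.Agent.Results.MP_642fbc_lc.Orphans
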